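import Pool.Agent.Y166.LT.Stm

/-! Project LT, job FACE: the map on the face is injective. -/

set_option autoImplicit false
set_option linter.unusedSectionVars false

namespace Pool.Agent.Y846.LT.FACE

open MvPolynomial Pool.Agent.Y166.GM Pool.Agent.Y166.SM Pool.Agent.Y198.MC Pool.Agent.Y166.LT
open FF (Place)

section gen
variable {k K σ : Type} [Field k] [Field K] [Algebra k K] {t : σ → K}

theorem aeval_ne (ht : AlgebraicIndependent k t) {F : MvPolynomial σ k} (hF : F ≠ 0) :
    aeval t F ≠ 0 := fun h => hF (ht (by rw [h, map_zero]))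

theorem ne_zero_of_ord {w : Place k K} {a : K} (h : w.ord a ≠ 0) : a ≠ 0 := by
  rintro rfl
  exact h w.ord_zero

theorem ord_pl (ht : AlgebraicIndependent k t) {w : Place k K} {h : MvPolynomial σ k}
    (hw : IsPl t w h) (hi : Irreducible h) {F : MvPolynomial σ k} (hF : F ≠ 0) :
    ∃ (n : ℕ) (G : MvPolynomial σ k), ¬ h ∣ G ∧ F = h ^ n * G ∧ w.ord (aeval t F) = n := by
  obtain ⟨n, G, hG, e⟩ := WfDvdMonoid.max_power_factor hF hi
  refine ⟨n, G, hG, e, ?_⟩
  have hG0 : G ≠ 0 := by
    rintro rfl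
    exact hG (dvd_zero _)
  rw [e, map_mul, map_pow, w.ord_mul (pow_ne_zero _ (aeval_ne ht hi.ne_zero)) (aeval_ne ht hG0),
    w.ord_pow, hw.1, hw.2 G hG]
  ring

theorem pl_nonneg (ht : AlgebraicIndependent k t) {w : Place k K} {h : MvPolynomial σ k}
    (hw : IsPl t w h) (hi : Irreducible h) (F : MvPolynomial σ k) : 0 ≤ w.ord (aeval t F) := by
  by_cases hF : F = 0
  · subst hF
    rw [map_zero, w.ord_zero]
  · obtain ⟨n, G, -, -, e⟩ := ord_pl ht hw hi hF
    rw [e]
    exact Int.natCast_nonneg n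

theorem pl_dvd {w : Place k K} {h : MvPolynomial σ k} (hw : IsPl t w h)
    {F : MvPolynomial σ k} (hF : w.ord (aeval t F) ≠ 0) : h ∣ F := by
  by_contra hc
  exact hF (hw.2 F hc)

theorem pl_one (ht : AlgebraicIndependent k t) {w : Place k K} {h p : MvPolynomial σ k}
    (hw : IsPl t w h) (hi : Irreducible h) (hp : Associated h p) : w.ord (aeval t p) = 1 := by
  obtain ⟨u, rfl⟩ := hp
  have hu : ¬ h ∣ (u : MvPolynomial σ k) := fun hd => hi.not_isUnit (isUnit_of_dvd_unit hd u.isUnit)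
  rw [map_mul, w.ord_mul (aeval_ne ht hi.ne_zero) (aeval_ne ht u.ne_zero), hw.1, hw.2 _ hu, add_zero]

theorem pl_ext (ht : AlgebraicIndependent k t)
    (htop : IntermediateField.adjoin k (Set.range t) = ⊤) {w w' : Place k K}
    {h h' : MvPolynomial σ k} (hw : IsPl t w h) (hw' : IsPl t w' h') (hi : Irreducible h)
    (ha : Associated h h') (z : K) : w.ord z = w'.ord z := by
  have key : ∀ F : MvPolynomial σ k, F ≠ 0 → w.ord (aeval t F) = w'.ord (aeval t F) := by
    intro F hF
    obtain ⟨n, G, hG, e, e1⟩ := ord_pl ht hw hi hF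
    have hG0 : G ≠ 0 := by
      rintro rfl
      exact hG (dvd_zero _)
    have hG' : ¬ h' ∣ G := fun hd => hG (ha.dvd.trans hd)
    rw [e1, e, map_mul, map_pow, w'.ord_mul (pow_ne_zero _ (aeval_ne ht hi.ne_zero))
      (aeval_ne ht hG0), w'.ord_pow, pl_one ht hw' (ha.irreducible hi) ha.symm, hw'.2 G hG']
    ring
  by_cases hz : z = 0
  · rw [hz, w.ord_zero, w'.ord_zero]
  have hm : z ∈ IntermediateField.adjoin k (Set.range t) := by rw [htop]; trivial
  rw [IntermediateField.mem_adjoin_range_iff] at hm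
  obtain ⟨F, G, e⟩ := hm
  have hF : aeval t F ≠ 0 := by
    intro h0
    rw [h0, zero_div] at e
    exact hz e
  have hG : aeval t G ≠ 0 := by
    intro h0
    rw [h0, div_zero] at e
    exact hz e
  have hF' : F ≠ 0 := by
    rintro rfl
    exact hF (map_zero _)
  have hG' : G ≠ 0 := by
    rintro rfl
    exact hG (map_zero _)
  rw [e, w.ord_div hF hG, w'.ord_div hF hG, key F hF', key G hG']

/-- An irreducible polynomial does not divide a polynomial if it vanishes at a point where the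
other one does not. -/
theorem ndvd {p q : MvPolynomial σ k} (a : σ → k) (h0 : eval a p = 0) (h1 : eval a q ≠ 0) :
    ¬ p ∣ q := by
  rintro ⟨s, rfl⟩
  rw [map_mul, h0, zero_mul] at h1
  exact h1 rfl

end gen

section nat
variable {k L : Type} [Field k] [Field L] [Algebra k L] {r : ℕ} (t : Sy r → L)

theorem nP : aeval t (P01 (X : Sy r → MvPolynomial (Sy r) k)) = P01 t := by
  simp [P01, wdg, tu, tv]

theorem nX : aeval t (X0 (X : Sy r → MvPolynomial (Sy r) k)) = X0 t := by
  simp [X0, vec, tu, tv, tx]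

theorem nQ : aeval t (Q00 (X : Sy r → MvPolynomial (Sy r) k)) = Q00 t := by
  simp [Q00, quad, tu, tv, tq]

theorem nR : aeval t (RR (X : Sy r → MvPolynomial (Sy r) k)) = RR t := by
  simp [RR, tx, tq]

theorem nw (s : Sg (r + 2)) : aeval t (wdg (tu (X : Sy r → MvPolynomial (Sy r) k)) (tv X) s) =
    wdg (tu t) (tv t) s := by
  simp [wdg, tu, tv]

theorem nv (i : Fin (r + 2)) : aeval t (vec (tu (X : Sy r → MvPolynomial (Sy r) k)) (tv X) (tx X) i)
    = vec (tu t) (tv t) (tx t) i := by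
  simp [vec, tu, tv, tx]

theorem nq (i : Fin (r + 2) × Fin (r + 2)) :
    aeval t (quad (tu (X : Sy r → MvPolynomial (Sy r) k)) (tv X) (tq X) i)
    = quad (tu t) (tv t) (tq t) i := by
  simp [quad, tu, tv, tq]

theorem nptX (j : Co (r + 2)) :
    aeval t (ptX (tu (X : Sy r → MvPolynomial (Sy r) k)) (tv X) (mulc (tx X) (tq X)) j)
    = ptX (tu t) (tv t) (mulc (tx t) (tq t)) j := by
  simp [ptX, wdg, cub, mulc, tu, tv, tx, tq]

theorem ptX_diag (s : Sg (r + 2)) (i : Fin (r + 2)) :
    ptX (tu t) (tv t) (mulc (tx t) (tq t)) (s, (i, i, i)) =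
      wdg (tu t) (tv t) s * (3 * (vec (tu t) (tv t) (tx t) i * quad (tu t) (tv t) (tq t) (i, i))) := by
  simp only [ptX]
  congr 1
  simp [cub, mulc, vec, quad]
  ring

end nat

section ev
variable {k : Type} [Field k] {r : ℕ} (a : Sy r → k)

theorem eP : eval a (P01 (X : Sy r → MvPolynomial (Sy r) k)) = P01 a := by
  simp [P01, wdg, tu, tv]

theorem eX : eval a (X0 (X : Sy r → MvPolynomial (Sy r) k)) = X0 a := by
  simp [X0, vec, tu, tv, tx]

theorem eQ : eval a (Q00 (X : Sy r → MvPolynomial (Sy r) k)) = Q00 a := by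
  simp [Q00, quad, tu, tv, tq]

theorem eR : eval a (RR (X : Sy r → MvPolynomial (Sy r) k)) = RR a := by
  simp [RR, tx, tq]

theorem ew (s : Sg (r + 2)) : eval a (wdg (tu (X : Sy r → MvPolynomial (Sy r) k)) (tv X) s) =
    wdg (tu a) (tv a) s := by
  simp [wdg, tu, tv]

theorem ev (i : Fin (r + 2)) : eval a (vec (tu (X : Sy r → MvPolynomial (Sy r) k)) (tv X) (tx X) i)
    = vec (tu a) (tv a) (tx a) i := by
  simp [vec, tu, tv, tx]

theorem eq' (i : Fin (r + 2) × Fin (r + 2)) :
    eval a (quad (tu (X : Sy r → MvPolynomial (Sy r) k)) (tv X) (tq X) i)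
    = quad (tu a) (tv a) (tq a) i := by
  simp [quad, tu, tv, tq]

/-- a point with given coordinates -/
def pt (u v : Fin (r + 2) → k) (x : Fin 2 → k) (q : Fin 3 → k) : Sy r → k :=
  Sum.elim u (Sum.elim v (Sum.elim x q))

theorem d_P_P2 (hr : 1 ≤ r) : ¬ P01 (X : Sy r → MvPolynomial (Sy r) k) ∣
    wdg (tu (X : Sy r → MvPolynomial (Sy r) k)) (tv X) (0, 2) := by
  obtain ⟨s, rfl⟩ : ∃ s, r = s + 1 := ⟨r - 1, by omega⟩
  have h2 : 2 % (s + 1 + 2) = 2 := Nat.mod_eq_of_lt (by omega)
  apply ndvd (pt (Pi.single 0 1) (Pi.single 2 1) 0 0)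
  · rw [eP]
    simp [P01, wdg, tu, tv, pt, Fin.ext_iff, h2]
  · rw [ew]
    simp [wdg, tu, tv, pt, Fin.ext_iff, h2]

theorem d_X_Q : ¬ X0 (X : Sy r → MvPolynomial (Sy r) k) ∣ Q00 (X : Sy r → MvPolynomial (Sy r) k) := by
  apply ndvd (pt (Pi.single 0 1) 0 0 ![1, 0, 0])
  · rw [eX]
    simp [X0, vec, tu, tv, tx, pt]
  · rw [eQ]
    simp [Q00, quad, tu, tv, tq, pt]

theorem d_X_X1 : ¬ X0 (X : Sy r → MvPolynomial (Sy r) k) ∣
    vec (tu (X : Sy r → MvPolynomial (Sy r) k)) (tv X) (tx X) 1 := by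
  apply ndvd (pt (Pi.single 1 1) 0 ![1, 0] 0)
  · rw [eX]
    simp [X0, vec, tu, tv, tx, pt]
  · rw [ev]
    simp [vec, tu, tv, tx, pt]

theorem d_X_Q1 : ¬ X0 (X : Sy r → MvPolynomial (Sy r) k) ∣
    quad (tu (X : Sy r → MvPolynomial (Sy r) k)) (tv X) (tq X) (1, 1) := by
  apply ndvd (pt (Pi.single 1 1) 0 0 ![1, 0, 0])
  · rw [eX]
    simp [X0, vec, tu, tv, tx, pt]
  · rw [eq']
    simp [quad, tu, tv, tq, pt]

theorem d_X_R : ¬ X0 (X : Sy r → MvPolynomial (Sy r) k) ∣ RR (X : Sy r → MvPolynomial (Sy r) k) := by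
  apply ndvd (pt 0 0 ![0, 1] ![1, 0, 0])
  · rw [eX]
    simp [X0, vec, tu, tv, tx, pt]
  · rw [eR]
    simp [RR, tx, tq, pt]

theorem d_X_P : ¬ X0 (X : Sy r → MvPolynomial (Sy r) k) ∣ P01 (X : Sy r → MvPolynomial (Sy r) k) := by
  apply ndvd (pt (Pi.single 0 1) (Pi.single 1 1) 0 0)
  · rw [eX]
    simp [X0, vec, tu, tv, tx, pt]
  · rw [eP]
    simp [P01, wdg, tu, tv, pt]

theorem d_Q_X : ¬ Q00 (X : Sy r → MvPolynomial (Sy r) k) ∣ X0 (X : Sy r → MvPolynomial (Sy r) k) := by
  apply ndvd (pt (Pi.single 0 1) 0 ![1, 0] 0)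
  · rw [eQ]
    simp [Q00, quad, tu, tv, tq, pt]
  · rw [eX]
    simp [X0, vec, tu, tv, tx, pt]

theorem d_Q_X1 : ¬ Q00 (X : Sy r → MvPolynomial (Sy r) k) ∣
    vec (tu (X : Sy r → MvPolynomial (Sy r) k)) (tv X) (tx X) 1 := by
  apply ndvd (pt (Pi.single 1 1) 0 ![1, 0] 0)
  · rw [eQ]
    simp [Q00, quad, tu, tv, tq, pt]
  · rw [ev]
    simp [vec, tu, tv, tx, pt]

theorem d_Q_Q1 : ¬ Q00 (X : Sy r → MvPolynomial (Sy r) k) ∣
    quad (tu (X : Sy r → MvPolynomial (Sy r) k)) (tv X) (tq X) (1, 1) := by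
  apply ndvd (pt (Pi.single 1 1) 0 0 ![1, 0, 0])
  · rw [eQ]
    simp [Q00, quad, tu, tv, tq, pt]
  · rw [eq']
    simp [quad, tu, tv, tq, pt]

theorem d_Q_R : ¬ Q00 (X : Sy r → MvPolynomial (Sy r) k) ∣ RR (X : Sy r → MvPolynomial (Sy r) k) := by
  apply ndvd (pt 0 0 ![0, 1] ![1, 0, 0])
  · rw [eQ]
    simp [Q00, quad, tu, tv, tq, pt]
  · rw [eR]
    simp [RR, tx, tq, pt]

theorem d_Q_P : ¬ Q00 (X : Sy r → MvPolynomial (Sy r) k) ∣ P01 (X : Sy r → MvPolynomial (Sy r) k) := by
  apply ndvd (pt (Pi.single 0 1) (Pi.single 1 1) 0 0)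
  · rw [eQ]
    simp [Q00, quad, tu, tv, tq, pt]
  · rw [eP]
    simp [P01, wdg, tu, tv, pt]

end ev

section core

theorem core (hEXT : S_EXT) (hCLS : S_CLS) (hRAM : S_RAM) (hEMB : S_EMB) (hFORM : S_FORM)
    (hIRR : S_IRR) (k K : Type) [Field k] [CharZero k] [Field K] [Algebra k K] (r : ℕ)
    (hr : 1 ≤ r) (Y : Ch r → K) (x : Co (r + 2) → K) (hc : Ctx k K r Y x)
    (γ₁ γ₂ : Place k K → ℝ) (h1 : IsFace (2 * r + 3) x γ₁) (h2 : IsFace (2 * r + 3) x γ₂)
    (hA : ∀ w : Place k K, Unram (2 * r + 3) x w →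
      ∑ᶠ (v : Place k K) (_ : Above x w v), γ₁ v = ∑ᶠ (v : Place k K) (_ : Above x w v), γ₂ v)
    (v0 : Place k K) (hv0 : Cen x v0) (hne : γ₁ v0 ≠ γ₂ v0) : False := by
  classical
  obtain ⟨L, _, _, _, _, t, hE⟩ := hEMB k K r Y x hc
  have hext := fun v hv => hEXT k K L r Y x t hc hE v hv
  choose h w hi hpl hw using hext
  obtain ⟨iP, iX, iQ, -, -⟩ := hIRR k r
  obtain ⟨fj0, fP, fX, fQ, ⟨c, hc0, hcx⟩, frho⟩ := hFORM k K L r Y x t hc hE
  have hti := hE.ind
  have htt := hE.top
  have hinj : ∀ v hv v' hv', Associated (h v hv) (h v' hv') → v = v' := by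
    intro v hv v' hv' ha
    apply Place.ext
    funext φ
    rw [← hw v hv φ, ← hw v' hv' φ]
    exact pl_ext hti htt (hpl v hv) (hpl v' hv') (hi v hv) ha _
  -- finiteness
  have hfin : ∀ φ : K, φ ≠ 0 → {v : Place k K | Unram (2 * r + 3) x v ∧ v.ord φ ≠ 0}.Finite := by
    intro φ hφ
    have hm : algebraMap K L φ ∈ IntermediateField.adjoin k (Set.range t) := by rw [htt]; trivial
    rw [IntermediateField.mem_adjoin_range_iff] at hm
    obtain ⟨F, G, e⟩ := hm
    have hz : algebraMap K L φ ≠ 0 := (map_ne_zero _).2 hφ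
    have hF : aeval t F ≠ 0 := by
      intro h0
      rw [h0, zero_div] at e
      exact hz e
    have hG : aeval t G ≠ 0 := by
      intro h0
      rw [h0, div_zero] at e
      exact hz e
    have hF' : F ≠ 0 := by
      rintro rfl
      exact hF (map_zero _)
    have hG' : G ≠ 0 := by
      rintro rfl
      exact hG (map_zero _)
    let g : Place k K → Associates (MvPolynomial (Sy r) k) := fun v =>
      if hv : Unram (2 * r + 3) x v then Associates.mk (h v hv) else 1
    apply Set.Finite.of_injOn (f := g)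
      (t := {a | a ∈ (UniqueFactorizationMonoid.factors (F * G)).map Associates.mk})
    · rintro v ⟨hv, hvo⟩
      have hd : h v hv ∣ F * G := by
        by_contra hcon
        apply hvo
        have e1 := (hpl v hv).2 F (fun hd => hcon (hd.mul_right G))
        have e2 := (hpl v hv).2 G (fun hd => hcon (hd.mul_left F))
        rw [← hw v hv φ, e, Place.ord_div _ hF hG, e1, e2, sub_zero]
      obtain ⟨q, hq, hqa⟩ := UniqueFactorizationMonoid.exists_mem_factors_of_dvd
        (mul_ne_zero hF' hG') (hi v hv) hd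
      simp only [Set.mem_ofPred_eq, Multiset.mem_map, g, dif_pos hv]
      exact ⟨q, hq, (Associates.mk_eq_mk_iff_associated.2 hqa).symm⟩
    · rintro v ⟨hv, -⟩ v' ⟨hv', -⟩ he
      simp only [g, dif_pos hv, dif_pos hv'] at he
      exact hinj v hv v' hv' (Associates.mk_eq_mk_iff_associated.1 he)
    · exact Multiset.finite_toSet _
  have hfinA : ∀ w : Place k K, Unram (2 * r + 3) x w →
      {v : Place k K | Unram (2 * r + 3) x v ∧ Above x w v}.Finite := by
    rintro w ⟨⟨φ, hφ, h1⟩, -⟩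
    have hφ0 : φ ≠ 0 := ne_zero_of_ord (w := w) (by rw [h1]; exact one_ne_zero)
    apply (hfin φ hφ0).subset
    rintro v ⟨hv, hva⟩
    refine ⟨hv, ?_⟩
    rw [hva φ hφ, h1]
    exact one_ne_zero
  -- the difference
  obtain ⟨δ, hδ⟩ : ∃ δ : Place k K → ℝ, δ = fun v => γ₁ v - γ₂ v := ⟨_, rfl⟩
  have hδU : ∀ v, δ v ≠ 0 → Unram (2 * r + 3) x v := by
    intro v hv
    by_contra hcon
    apply hv
    rw [hδ]
    simp only [h1.2.1 v hcon, h2.2.1 v hcon, sub_zero]
  have prin : ∀ φ : K, φ ≠ 0 → ∑ᶠ v : Place k K, (v.ord φ : ℝ) * δ v = 0 := by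
    intro φ hφ
    have hs : ∀ γ : Place k K → ℝ, IsFace (2 * r + 3) x γ →
        (Function.support fun v : Place k K => (v.ord φ : ℝ) * γ v).Finite := by
      intro γ hγ
      apply (hfin φ hφ).subset
      intro v hv
      rw [Function.mem_support] at hv
      refine ⟨?_, ?_⟩
      · by_contra hcon
        rw [hγ.2.1 v hcon, mul_zero] at hv
        exact hv rfl
      · intro h0
        rw [h0, Int.cast_zero, zero_mul] at hv
        exact hv rfl
    have := finsum_sub_distrib (hs γ₁ h1) (hs γ₂ h2)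
    rw [h1.2.2 φ hφ, h2.2.2 φ hφ, sub_zero] at this
    refine Eq.trans (finsum_congr fun v => ?_) this
    rw [hδ]
    ring
  have abv : ∀ w : Place k K, Unram (2 * r + 3) x w →
      ∑ᶠ v : Place k K, (if Above x w v then δ v else 0) = 0 := by
    intro w hwU
    have hs : ∀ γ : Place k K → ℝ, IsFace (2 * r + 3) x γ →
        (Function.support fun v : Place k K => if Above x w v then γ v else 0).Finite := by
      intro γ hγ
      apply (hfinA w hwU).subset
      intro v hv
      rw [Function.mem_support] at hv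
      have hab : Above x w v := by
        by_contra hcon
        rw [if_neg hcon] at hv
        exact hv rfl
      refine ⟨?_, hab⟩
      by_contra hcon
      rw [if_pos hab, hγ.2.1 v hcon] at hv
      exact hv rfl
    have := finsum_sub_distrib (hs γ₁ h1) (hs γ₂ h2)
    have hA' := hA w hwU
    simp only [finsum_eq_if] at hA'
    rw [hA', sub_self] at this
    refine Eq.trans (finsum_congr fun v => ?_) this
    rw [hδ]
    by_cases hab : Above x w v
    · simp only [if_pos hab]
    · simp only [if_neg hab, sub_zero]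
  -- the orders of polynomials
  have hnn : ∀ v hv (F : MvPolynomial (Sy r) k), 0 ≤ (w v hv).ord (aeval t F) :=
    fun v hv F => pl_nonneg hti (hpl v hv) (hi v hv) F
  have hone : ∀ v hv (p : MvPolynomial (Sy r) k), Associated (h v hv) p →
      (w v hv).ord (aeval t p) = 1 := fun v hv p hp => pl_one hti (hpl v hv) (hi v hv) hp
  have hzero : ∀ v hv (p q : MvPolynomial (Sy r) k), Associated (h v hv) p → ¬ p ∣ q →
      (w v hv).ord (aeval t q) = 0 :=
    fun v hv p q hp hpq => (hpl v hv).2 q (fun hd => hpq (hp.symm.dvd.trans hd))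
  have hassoc : ∀ v hv (p : MvPolynomial (Sy r) k), Irreducible p →
      (w v hv).ord (aeval t p) ≠ 0 → Associated (h v hv) p := by
    intro v hv p hp hne
    exact (hi v hv).associated_of_dvd hp (pl_dvd (hpl v hv) hne)
  have h3 : ∀ u : Place k L, u.ord (3 : L) = 0 := by
    intro u
    have := u.ord_const (c := (3 : k)) three_ne_zero
    rwa [map_ofNat] at this
  have : CharZero L := charZero_of_injective_algebraMap (algebraMap k L).injective
  have h30 : (3 : L) ≠ 0 := three_ne_zero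
  have f2 : wdg (tu t) (tv t) (0, 2) ≠ 0 := by
    rw [← nw (k := k)]
    apply aeval_ne hti
    intro h0
    apply d_P_P2 (k := k) hr
    rw [h0]
    exact dvd_zero _
  have fX1 : vec (tu t) (tv t) (tx t) 1 ≠ 0 := by
    rw [← nv (k := k)]
    apply aeval_ne hti
    intro h0
    apply d_X_X1 (k := k) (r := r)
    rw [h0]
    exact dvd_zero _
  have fQ1 : quad (tu t) (tv t) (tq t) (1, 1) ≠ 0 := by
    rw [← nq (k := k)]
    apply aeval_ne hti
    intro h0
    apply d_X_Q1 (k := k) (r := r)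
    rw [h0]
    exact dvd_zero _
  have fR : RR t ≠ 0 := by
    rw [← nR (k := k)]
    apply aeval_ne hti
    intro h0
    apply d_X_R (k := k) (r := r)
    rw [h0]
    exact dvd_zero _
  have e0 : algebraMap K L (x (j0 r)) = c * (P01 t * (3 * (X0 t * Q00 t))) := by
    rw [hcx, j0, ptX_diag]
    rfl
  have e2 : algebraMap K L (x ((0, 2), (0, 0, 0))) =
      c * (wdg (tu t) (tv t) (0, 2) * (3 * (X0 t * Q00 t))) := by
    rw [hcx, ptX_diag]
    rfl
  have e1 : algebraMap K L (x ((0, 1), (1, 1, 1))) =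
      c * (P01 t * (3 * (vec (tu t) (tv t) (tx t) 1 * quad (tu t) (tv t) (tq t) (1, 1)))) := by
    rw [hcx, ptX_diag]
    rfl
  have hx0 : x (j0 r) ≠ 0 := by
    intro h0
    rw [h0, map_zero] at e0
    exact (mul_ne_zero hc0 (mul_ne_zero fP (mul_ne_zero h30 (mul_ne_zero fX fQ)))) e0.symm
  -- places which are not centred in the chart
  have hnc : ∀ v hv, ¬ Cen x v → Associated (h v hv) (P01 X) ∨ Associated (h v hv) (X0 X) ∨
      Associated (h v hv) (Q00 X) := by
    intro v hv hcen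
    by_contra hcon
    rw [not_or, not_or] at hcon
    obtain ⟨c1, c2, c3⟩ := hcon
    have oP : (w v hv).ord (P01 t) = 0 := by
      by_contra hne
      exact c1 (hassoc v hv _ iP (by rwa [nP]))
    have oX : (w v hv).ord (X0 t) = 0 := by
      by_contra hne
      exact c2 (hassoc v hv _ iX (by rwa [nX]))
    have oQ : (w v hv).ord (Q00 t) = 0 := by
      by_contra hne
      exact c3 (hassoc v hv _ iQ (by rwa [nQ]))
    apply hcen
    refine ⟨hx0, fun j => ?_⟩
    by_cases hj : x j = 0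
    · left
      rw [hj, zero_div]
    right
    have hj' : ptX (tu t) (tv t) (mulc (tx t) (tq t)) j ≠ 0 := by
      intro h0
      have := hcx j
      rw [h0, mul_zero] at this
      exact hj ((map_eq_zero _).1 this)
    rw [v.ord_div hj hx0, ← hw v hv, ← hw v hv, hcx j, e0, Place.ord_mul _ hc0 hj',
      Place.ord_mul _ hc0 (mul_ne_zero fP (mul_ne_zero h30 (mul_ne_zero fX fQ))),
      Place.ord_mul _ fP (mul_ne_zero h30 (mul_ne_zero fX fQ)),
      Place.ord_mul _ h30 (mul_ne_zero fX fQ), Place.ord_mul _ fX fQ, oP, oX, oQ, h3]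
    have := hnn v hv (ptX (tu X) (tv X) (mulc (tx X) (tq X)) j)
    rw [nptX] at this
    linarith
  -- two rational functions
  have he : ∀ v hv, v.ord (x (j0 r) / x ((0, 2), (0, 0, 0))) =
      (w v hv).ord (P01 t) - (w v hv).ord (wdg (tu t) (tv t) (0, 2)) := by
    intro v hv
    have hx2 : x ((0, 2), (0, 0, 0)) ≠ 0 := by
      intro h0
      rw [h0, map_zero] at e2
      exact (mul_ne_zero hc0 (mul_ne_zero f2 (mul_ne_zero h30 (mul_ne_zero fX fQ)))) e2.symm
    rw [v.ord_div hx0 hx2, ← hw v hv, ← hw v hv, e0, e2,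
      Place.ord_mul _ hc0 (mul_ne_zero fP (mul_ne_zero h30 (mul_ne_zero fX fQ))),
      Place.ord_mul _ hc0 (mul_ne_zero f2 (mul_ne_zero h30 (mul_ne_zero fX fQ))),
      Place.ord_mul _ fP (mul_ne_zero h30 (mul_ne_zero fX fQ)),
      Place.ord_mul _ f2 (mul_ne_zero h30 (mul_ne_zero fX fQ))]
    ring
  have he' : ∀ v hv, v.ord (x (j0 r) / x ((0, 1), (1, 1, 1))) =
      (w v hv).ord (X0 t) + (w v hv).ord (Q00 t) - (w v hv).ord (vec (tu t) (tv t) (tx t) 1) -
        (w v hv).ord (quad (tu t) (tv t) (tq t) (1, 1)) := by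
    intro v hv
    have hx1 : x ((0, 1), (1, 1, 1)) ≠ 0 := by
      intro h0
      rw [h0, map_zero] at e1
      exact (mul_ne_zero hc0 (mul_ne_zero fP (mul_ne_zero h30 (mul_ne_zero fX1 fQ1)))) e1.symm
    rw [v.ord_div hx0 hx1, ← hw v hv, ← hw v hv, e0, e1,
      Place.ord_mul _ hc0 (mul_ne_zero fP (mul_ne_zero h30 (mul_ne_zero fX fQ))),
      Place.ord_mul _ hc0 (mul_ne_zero fP (mul_ne_zero h30 (mul_ne_zero fX1 fQ1))),
      Place.ord_mul _ fP (mul_ne_zero h30 (mul_ne_zero fX fQ)),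
      Place.ord_mul _ fP (mul_ne_zero h30 (mul_ne_zero fX1 fQ1)),
      Place.ord_mul _ h30 (mul_ne_zero fX fQ), Place.ord_mul _ h30 (mul_ne_zero fX1 fQ1),
      Place.ord_mul _ fX fQ, Place.ord_mul _ fX1 fQ1]
    ring
  have hem : x (j0 r) / x ((0, 2), (0, 0, 0)) ∈ ratX k x :=
    IntermediateField.subset_adjoin k _ ⟨(j0 r, ((0, 2), (0, 0, 0))), rfl⟩
  have hem' : x (j0 r) / x ((0, 1), (1, 1, 1)) ∈ ratX k x :=
    IntermediateField.subset_adjoin k _ ⟨(j0 r, ((0, 1), (1, 1, 1))), rfl⟩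
  have hrefl : ∀ v : Place k K, Above x v v := fun v φ _ => rfl
  -- the place of `P01`
  have δP : ∀ v hv, Associated (h v hv) (P01 X) → δ v = 0 := by
    intro v hv ha
    have s := abv v hv
    rw [finsum_eq_single _ v, if_pos (hrefl v)] at s
    · exact s
    intro v' hne'
    by_contra hcon
    have hab : Above x v v' := by
      by_contra hn
      exact hcon (if_neg hn)
    rw [if_pos hab] at hcon
    have hv' := hδU v' hcon
    have o1 := hab _ hem
    rw [he v' hv', he v hv, ← nP (k := k), ← nw (k := k), hone v hv _ ha,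
      hzero v hv _ _ ha (d_P_P2 hr)] at o1
    have o2 := hnn v' hv' (wdg (tu X) (tv X) (0, 2))
    have o3 : (w v' hv').ord (aeval t (P01 (X : Sy r → MvPolynomial (Sy r) k))) ≠ 0 := by
      omega
    exact hne' (hinj v' hv' v hv ((hassoc v' hv' _ iP o3).trans ha.symm))
  -- above the places of `X0` and `Q00`
  have habv : ∀ v, v.ord (x (j0 r) / x ((0, 1), (1, 1, 1))) = 1 → ∀ v', Above x v v' →
      ∀ hv', Associated (h v' hv') (X0 X) ∨ Associated (h v' hv') (Q00 X) := by
    intro v hv1 v' hab hv'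
    have o1 := hab _ hem'
    rw [hv1, he' v' hv', ← nX (k := k), ← nQ (k := k), ← nv (k := k), ← nq (k := k)] at o1
    have o2 := hnn v' hv' (vec (tu X) (tv X) (tx X) 1)
    have o3 := hnn v' hv' (quad (tu X) (tv X) (tq X) (1, 1))
    by_cases o4 : (w v' hv').ord (aeval t (X0 (X : Sy r → MvPolynomial (Sy r) k))) = 0
    · right
      apply hassoc v' hv' _ iQ
      omega
    · left
      exact hassoc v' hv' _ iX o4
  have hX1 : ∀ v hv, Associated (h v hv) (X0 X) →
      v.ord (x (j0 r) / x ((0, 1), (1, 1, 1))) = 1 := by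
    intro v hv ha
    rw [he' v hv, ← nX (k := k), ← nQ (k := k), ← nv (k := k), ← nq (k := k), hone v hv _ ha,
      hzero v hv _ _ ha d_X_Q, hzero v hv _ _ ha d_X_X1, hzero v hv _ _ ha d_X_Q1]
    ring
  have hQ1 : ∀ v hv, Associated (h v hv) (Q00 X) →
      v.ord (x (j0 r) / x ((0, 1), (1, 1, 1))) = 1 := by
    intro v hv ha
    rw [he' v hv, ← nX (k := k), ← nQ (k := k), ← nv (k := k), ← nq (k := k), hone v hv _ ha,
      hzero v hv _ _ ha d_Q_X, hzero v hv _ _ ha d_Q_X1, hzero v hv _ _ ha d_Q_Q1]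
    ring
  -- the function `rho`
  have hrho0 : aeval Y (rho k r) ≠ 0 := by
    intro h0
    rw [h0, map_zero, zero_mul] at frho
    exact (mul_ne_zero fR (pow_ne_zero 2 fP)) frho.symm
  have hrho : ∀ v hv, v.ord (aeval Y (rho k r)) = (w v hv).ord (RR t) +
      2 * (w v hv).ord (P01 t) - 2 * (w v hv).ord (X0 t) - (w v hv).ord (Q00 t) := by
    intro v hv
    have h4 := congrArg (w v hv).ord frho
    rw [Place.ord_mul _ ((map_ne_zero _).2 hrho0) (mul_ne_zero (pow_ne_zero 2 fX) fQ),
      Place.ord_mul _ (pow_ne_zero 2 fX) fQ, Place.ord_mul _ fR (pow_ne_zero 2 fP),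
      Place.ord_pow, Place.ord_pow, hw v hv] at h4
    push_cast at h4
    linarith
  have hrX : ∀ v hv, Associated (h v hv) (X0 X) → v.ord (aeval Y (rho k r)) = -2 := by
    intro v hv ha
    rw [hrho v hv, ← nX (k := k), ← nQ (k := k), ← nR (k := k), ← nP (k := k), hone v hv _ ha,
      hzero v hv _ _ ha d_X_Q, hzero v hv _ _ ha d_X_R, hzero v hv _ _ ha d_X_P]
    ring
  have hrQ : ∀ v hv, Associated (h v hv) (Q00 X) → v.ord (aeval Y (rho k r)) = -1 := by
    intro v hv ha
    rw [hrho v hv, ← nX (k := k), ← nQ (k := k), ← nR (k := k), ← nP (k := k), hone v hv _ ha,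
      hzero v hv _ _ ha d_Q_X, hzero v hv _ _ ha d_Q_R, hzero v hv _ _ ha d_Q_P]
    ring
  have δX : ∀ v hv, Associated (h v hv) (X0 X) → δ v = 0 := by
    intro v hv ha
    by_cases hQ : ∃ (v' : Place k K) (hv' : Unram (2 * r + 3) x v'),
        Associated (h v' hv') (Q00 X) ∧ Above x v v'
    · obtain ⟨v', hv', hq, hab⟩ := hQ
      have hvv : v ≠ v' := by
        rintro rfl
        exact d_X_Q ((ha.symm.trans hq).dvd)
      have s1 := abv v hv
      rw [finsum_eq_sum_of_support_subset _ (s := {v, v'}), Finset.sum_pair hvv,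
        if_pos (hrefl v), if_pos hab] at s1
      · have s2 := prin _ hrho0
        rw [finsum_eq_sum_of_support_subset _ (s := {v, v'}), Finset.sum_pair hvv,
          hrX v hv ha, hrQ v' hv' hq] at s2
        · push_cast at s2
          linarith
        · intro u hu
          rw [Function.mem_support] at hu
          have hu1 : δ u ≠ 0 := right_ne_zero_of_mul hu
          have hu2 : u.ord (aeval Y (rho k r)) ≠ 0 := by
            intro h0
            rw [h0, Int.cast_zero, zero_mul] at hu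
            exact hu rfl
          have huU := hδU u hu1
          have hucen : ¬ Cen x u := fun hcen => hu2 (hRAM k K r Y x hc u huU hcen)
          simp only [Finset.coe_insert, Finset.coe_singleton, Set.mem_insert_iff,
            Set.mem_singleton_iff]
          rcases hnc u huU hucen with a1 | a1 | a1
          · exact absurd (δP u huU a1) hu1
          · left
            exact hinj u huU v hv (a1.trans ha.symm)
          · right
            exact hinj u huU v' hv' (a1.trans hq.symm)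
      · intro u hu
        rw [Function.mem_support] at hu
        have hab' : Above x v u := by
          by_contra hn
          exact hu (if_neg hn)
        rw [if_pos hab'] at hu
        have huU := hδU u hu
        simp only [Finset.coe_insert, Finset.coe_singleton, Set.mem_insert_iff,
          Set.mem_singleton_iff]
        rcases habv v (hX1 v hv ha) u hab' huU with a1 | a1
        · left
          exact hinj u huU v hv (a1.trans ha.symm)
        · right
          exact hinj u huU v' hv' (a1.trans hq.symm)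
    · have s1 := abv v hv
      rw [finsum_eq_single _ v, if_pos (hrefl v)] at s1
      · exact s1
      intro u hne'
      by_contra hcon
      have hab : Above x v u := by
        by_contra hn
        exact hcon (if_neg hn)
      rw [if_pos hab] at hcon
      have huU := hδU u hcon
      rcases habv v (hX1 v hv ha) u hab huU with a1 | a1
      · exact hne' (hinj u huU v hv (a1.trans ha.symm))
      · exact hQ ⟨u, huU, a1, hab⟩
  have δQ : ∀ v hv, Associated (h v hv) (Q00 X) → δ v = 0 := by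
    intro v hv ha
    have s1 := abv v hv
    rw [finsum_eq_single _ v, if_pos (hrefl v)] at s1
    · exact s1
    intro u hne'
    by_contra hcon
    have hab : Above x v u := by
      by_contra hn
      exact hcon (if_neg hn)
    rw [if_pos hab] at hcon
    have huU := hδU u hcon
    rcases habv v (hQ1 v hv ha) u hab huU with a1 | a1
    · exact hcon (δX u huU a1)
    · exact hne' (hinj u huU v hv (a1.trans ha.symm))
  have hcen : ∀ v, δ v ≠ 0 → Cen x v := by
    intro v hv
    by_contra hcon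
    rcases hnc v (hδU v hv) hcon with a1 | a1 | a1
    · exact hv (δP v _ a1)
    · exact hv (δX v _ a1)
    · exact hv (δQ v _ a1)
  -- the place `v0`
  have hδ0 : δ v0 ≠ 0 := by
    rw [hδ]
    exact sub_ne_zero.2 hne
  obtain ⟨q, hqi, hq⟩ := hCLS k K r Y x hc v0 (hδU v0 hδ0) hv0
  have hφ : aeval Y q ≠ 0 := aeval_ne hc.ind hqi.ne_zero
  have s3 := prin _ hφ
  rw [finsum_eq_single _ v0, hq.1, Int.cast_one, one_mul] at s3
  · exact hδ0 s3
  intro u hu
  by_contra hcon
  have hu1 : δ u ≠ 0 := right_ne_zero_of_mul hcon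
  have hu2 : u.ord (aeval Y q) ≠ 0 := by
    intro h0
    rw [h0, Int.cast_zero, zero_mul] at hcon
    exact hcon rfl
  obtain ⟨q', hqi', hq'⟩ := hCLS k K r Y x hc u (hδU u hu1) (hcen u hu1)
  have ha : Associated q' q := hqi'.associated_of_dvd hqi (pl_dvd hq' hu2)
  exact hu (Place.ext (funext fun z => pl_ext hc.ind hc.top hq' hq hqi' ha z))

theorem done : S_EXT → S_CLS → S_RAM → S_SYM → S_INV → S_CHOOSE → S_EMB → S_FORM → S_IRR →
    S_FACE := by
  intro hEXT hCLS hRAM hSYM hINV hCH hEMB hFORM hIRR k K _ _ _ _ _ r hr Y x hc hF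
  obtain ⟨γ₁, γ₂, h1, h2, hne, hA⟩ := hF
  obtain ⟨v0, hv0⟩ := Function.ne_iff.1 hne
  obtain ⟨g, hg, hcen⟩ := hCH k K r Y x hc v0
  have hc' := hSYM k K r Y x hc g hg
  obtain ⟨i1, i2⟩ := hINV k K (r + 2) (2 * r + 3) x g hg
  have hface : ∀ γ : Place k K → ℝ, IsFace (2 * r + 3) x γ → IsFace (2 * r + 3) (actX g x) γ := by
    intro γ hγ
    exact ⟨hγ.1, fun v hv => hγ.2.1 v (fun hn => hv ((i2 v).2 hn)), hγ.2.2⟩
  have hab : ∀ w v : Place k K, Above (actX g x) w v ↔ Above x w v := by
    intro w v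
    unfold Above
    rw [i1]
  refine core hEXT hCLS hRAM hEMB hFORM hIRR k K r hr _ _ hc' γ₁ γ₂ (hface _ h1) (hface _ h2)
    ?_ v0 hcen hv0
  intro w hw
  have := hA w ((i2 w).1 hw)
  simpa only [hab] using this

end core

end Pool.Agent.Y846.LT.FACE
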