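import Pool.Agent.Y166.LT.Stm

/-! Project LT, job SYM: translation of the charts. -/

set_option autoImplicit false
set_option linter.unusedSectionVars false

namespace Pool.Agent.Y846.LT.SYM

open MvPolynomial Pool.Agent.Y166.GM Pool.Agent.Y166.SM Pool.Agent.Y198.MC Pool.Agent.Y166.LT
open FF (Place)

section alg
variable {k K : Type} [Field k] [Field K] [Algebra k K] {N : ℕ}

/-- The action on two-tensors. -/
def aW (g : Matrix (Fin N) (Fin N) k) (W : Sg N → K) : Sg N → K :=
  fun s => ∑ p : Sg N, algebraMap k K (g s.1 p.1 * g s.2 p.2) * W p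

/-- The action on three-tensors. -/
def aT (g : Matrix (Fin N) (Fin N) k) (T : Ta N → K) : Ta N → K :=
  fun s => ∑ p : Ta N, algebraMap k K (g s.1 p.1 * g s.2.1 p.2.1 * g s.2.2 p.2.2) * T p

theorem actX_prod (g : Matrix (Fin N) (Fin N) k) (W : Sg N → K) (T : Ta N → K) (t : Co N) :
    actX g (fun t => W t.1 * T t.2) t = aW g W t.1 * aT g T t.2 := by
  unfold actX aW aT
  rw [Finset.sum_mul_sum, Fintype.sum_prod_type]
  refine Finset.sum_congr rfl fun p _ => Finset.sum_congr rfl fun q _ => ?_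
  rw [map_mul]
  ring

theorem aW_prod (g : Matrix (Fin N) (Fin N) k) (u v : Fin N → K) (s : Sg N) :
    aW g (fun s => u s.1 * v s.2) s = act g u s.1 * act g v s.2 := by
  unfold aW act
  rw [Finset.sum_mul_sum, Fintype.sum_prod_type]
  refine Finset.sum_congr rfl fun p _ => Finset.sum_congr rfl fun q _ => ?_
  rw [map_mul]
  ring

theorem aT_prod (g : Matrix (Fin N) (Fin N) k) (u : Fin N → K) (W : Sg N → K) (s : Ta N) :
    aT g (fun s => u s.1 * W s.2) s = act g u s.1 * aW g W s.2 := by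
  unfold aT aW act
  rw [Finset.sum_mul_sum, Fintype.sum_prod_type]
  refine Finset.sum_congr rfl fun p _ => Finset.sum_congr rfl fun q _ => ?_
  simp only [map_mul]
  ring

theorem aW_add (g : Matrix (Fin N) (Fin N) k) (W W' : Sg N → K) (s : Sg N) :
    aW g (fun s => W s + W' s) s = aW g W s + aW g W' s := by
  unfold aW
  rw [← Finset.sum_add_distrib]
  exact Finset.sum_congr rfl fun p _ => by ring

theorem aW_sub (g : Matrix (Fin N) (Fin N) k) (W W' : Sg N → K) (s : Sg N) :
    aW g (fun s => W s - W' s) s = aW g W s - aW g W' s := by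
  unfold aW
  rw [← Finset.sum_sub_distrib]
  exact Finset.sum_congr rfl fun p _ => by ring

theorem aW_mul (g : Matrix (Fin N) (Fin N) k) (c : K) (W : Sg N → K) (s : Sg N) :
    aW g (fun s => c * W s) s = c * aW g W s := by
  unfold aW
  rw [Finset.mul_sum]
  exact Finset.sum_congr rfl fun p _ => by ring

theorem aT_add (g : Matrix (Fin N) (Fin N) k) (W W' : Ta N → K) (s : Ta N) :
    aT g (fun s => W s + W' s) s = aT g W s + aT g W' s := by
  unfold aT
  rw [← Finset.sum_add_distrib]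
  exact Finset.sum_congr rfl fun p _ => by ring

theorem aT_mul (g : Matrix (Fin N) (Fin N) k) (c : K) (W : Ta N → K) (s : Ta N) :
    aT g (fun s => c * W s) s = c * aT g W s := by
  unfold aT
  rw [Finset.mul_sum]
  exact Finset.sum_congr rfl fun p _ => by ring

theorem actX_mul (g : Matrix (Fin N) (Fin N) k) (c : K) (x : Co N → K) (t : Co N) :
    actX g (fun t => c * x t) t = c * actX g x t := by
  unfold actX
  rw [Finset.mul_sum]
  exact Finset.sum_congr rfl fun p _ => by ring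

theorem aW_wdg (g : Matrix (Fin N) (Fin N) k) (u v : Fin N → K) (s : Sg N) :
    aW g (wdg u v) s = wdg (act g u) (act g v) s := by
  have : (wdg u v : Sg N → K) = fun s => (fun s : Sg N => u s.1 * v s.2) s -
      (fun s : Sg N => v s.1 * u s.2) s := rfl
  rw [this, aW_sub, aW_prod, aW_prod]
  rfl

theorem aW_quad (g : Matrix (Fin N) (Fin N) k) (u v : Fin N → K) (q : Fin 3 → K) (s : Sg N) :
    aW g (quad u v q) s = quad (act g u) (act g v) q s := by
  have : (quad u v q : Sg N → K) = fun s =>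
      (fun s : Sg N => (fun s : Sg N => q 0 * (fun s : Sg N => u s.1 * u s.2) s) s +
        (fun s : Sg N => q 1 * (fun s : Sg N => (fun s : Sg N => u s.1 * v s.2) s +
          (fun s : Sg N => v s.1 * u s.2) s) s) s) s +
      (fun s : Sg N => q 2 * (fun s : Sg N => v s.1 * v s.2) s) s := rfl
  rw [this, aW_add, aW_add, aW_mul, aW_mul, aW_mul, aW_add, aW_prod, aW_prod, aW_prod, aW_prod]
  rfl

theorem act_vec (g : Matrix (Fin N) (Fin N) k) (u v : Fin N → K) (x : Fin 2 → K) (i : Fin N) :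
    act g (vec u v x) i = vec (act g u) (act g v) x i := by
  unfold act vec
  rw [Finset.mul_sum, Finset.mul_sum, ← Finset.sum_add_distrib]
  exact Finset.sum_congr rfl fun p _ => by ring

theorem actX_ptY (g : Matrix (Fin N) (Fin N) k) (u v : Fin N → K) (x : Fin 2 → K)
    (q : Fin 3 → K) (t : Co N) :
    actX g (ptY u v x q) t = ptY (act g u) (act g v) x q t := by
  have : (ptY u v x q : Co N → K) = fun t => (wdg u v) t.1 *
      (fun s : Ta N => (vec u v x) s.1 * (quad u v q) s.2) t.2 := rfl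
  rw [this, actX_prod g (wdg u v) (fun s : Ta N => (vec u v x) s.1 * (quad u v q) s.2),
    aT_prod g (vec u v x) (quad u v q), aW_wdg, aW_quad, act_vec]
  rfl

theorem cub_mulc (u v : Fin N → K) (x : Fin 2 → K) (q : Fin 3 → K) (t : Ta N) :
    cub u v (mulc x q) t = vec u v x t.1 * quad u v q (t.2.1, t.2.2) +
      vec u v x t.2.1 * quad u v q (t.1, t.2.2) + vec u v x t.2.2 * quad u v q (t.1, t.2.1) := by
  simp [cub, mulc, vec, quad]
  ring

theorem aT_swap (g : Matrix (Fin N) (Fin N) k) (T : Ta N → K) (t : Ta N) :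
    aT g (fun t => T (t.2.1, t.1, t.2.2)) t = aT g T (t.2.1, t.1, t.2.2) := by
  unfold aT
  refine Fintype.sum_equiv ⟨fun t : Ta N => (t.2.1, t.1, t.2.2), fun t : Ta N => (t.2.1, t.1, t.2.2),
    fun _ => rfl, fun _ => rfl⟩ _ _ fun p => ?_
  simp only [Equiv.coe_fn_mk, map_mul]
  ring

theorem aT_rot (g : Matrix (Fin N) (Fin N) k) (T : Ta N → K) (t : Ta N) :
    aT g (fun t => T (t.2.2, t.1, t.2.1)) t = aT g T (t.2.2, t.1, t.2.1) := by
  unfold aT
  refine Fintype.sum_equiv ⟨fun t : Ta N => (t.2.2, t.1, t.2.1), fun t : Ta N => (t.2.1, t.2.2, t.1),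
    fun _ => rfl, fun _ => rfl⟩ _ _ fun p => ?_
  simp only [Equiv.coe_fn_mk, map_mul]
  ring

theorem aT_cub (g : Matrix (Fin N) (Fin N) k) (u v : Fin N → K) (x : Fin 2 → K) (q : Fin 3 → K)
    (t : Ta N) : aT g (cub u v (mulc x q)) t = cub (act g u) (act g v) (mulc x q) t := by
  have h1 : (cub u v (mulc x q) : Ta N → K) = fun t =>
      (fun t : Ta N => (fun s : Ta N => (vec u v x) s.1 * (quad u v q) s.2) t +
      (fun t : Ta N => (fun s : Ta N => (vec u v x) s.1 * (quad u v q) s.2) (t.2.1, t.1, t.2.2)) t) t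
      + (fun t : Ta N => (fun s : Ta N => (vec u v x) s.1 * (quad u v q) s.2)
        (t.2.2, t.1, t.2.1)) t := by
    funext t
    rw [cub_mulc]
  rw [h1, aT_add, aT_add, aT_swap g (fun s : Ta N => (vec u v x) s.1 * (quad u v q) s.2),
    aT_rot g (fun s : Ta N => (vec u v x) s.1 * (quad u v q) s.2),
    aT_prod g (vec u v x) (quad u v q), aT_prod g (vec u v x) (quad u v q),
    aT_prod g (vec u v x) (quad u v q), cub_mulc, aW_quad, aW_quad,
    aW_quad, act_vec, act_vec, act_vec]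

theorem actX_ptX (g : Matrix (Fin N) (Fin N) k) (u v : Fin N → K) (x : Fin 2 → K)
    (q : Fin 3 → K) (t : Co N) :
    actX g (ptX u v (mulc x q)) t = ptX (act g u) (act g v) (mulc x q) t := by
  have : (ptX u v (mulc x q) : Co N → K) = fun t => (wdg u v) t.1 * (cub u v (mulc x q)) t.2 := rfl
  rw [this, actX_prod g (wdg u v) (cub u v (mulc x q)), aW_wdg, aT_cub]
  rfl

theorem act_inv (g : Matrix (Fin N) (Fin N) k) (hg : g.det ≠ 0) (u : Fin N → K) :
    act g⁻¹ (act g u) = u := by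
  have e : ∀ (h : Matrix (Fin N) (Fin N) k) (w : Fin N → K),
      act h w = Matrix.mulVec (h.map (algebraMap k K)) w := fun h w => rfl
  rw [e, e, Matrix.mulVec_mulVec, ← Matrix.map_mul, Matrix.nonsing_inv_mul _ (isUnit_iff_ne_zero.2 hg),
    Matrix.map_one _ (map_zero _) (map_one _), Matrix.one_mulVec]

end alg

section ratio
variable {K : Type} [Field K] {r : ℕ}

/-- The ratios of the coordinates. -/
def rat (u v : Fin (r + 2) → K) (x : Fin 2 → K) (q : Fin 3 → K) : Ch r → K := fun j =>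
  ptY u v x q (rrY r j) / ptY u v x q (j0 r)

theorem quad_div {N : ℕ} (U V : Fin N → K) (b c d : K) (hb : b ≠ 0) (s : Fin N × Fin N) :
    quad U V ![1, c / b, d / b] s = (b * (U s.1 * U s.2) + c * (U s.1 * V s.2 + V s.1 * U s.2) +
      d * (V s.1 * V s.2)) / b := by
  simp only [quad, Matrix.cons_val]
  field_simp

variable {u v : Fin (r + 2) → K} {x : Fin 2 → K} {q : Fin 3 → K}
  (hd : wdg u v (0, 1) ≠ 0) (ha : vec u v x 0 ≠ 0) (hb : quad u v q (0, 0) ≠ 0)

include hd ha hb

theorem rat0 (i : Fin r) : rat u v x q (.inl (i, 0)) = wdg u v (i.succ.succ, 1) / wdg u v (0, 1) := by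
  simp only [rat, rrY, j0, ptY, if_true]
  field_simp

theorem rat1 (i : Fin r) : rat u v x q (.inl (i, 1)) = wdg u v (0, i.succ.succ) / wdg u v (0, 1) := by
  simp only [rat, rrY, j0, ptY, if_neg (show (1 : Fin 2) ≠ 0 by decide)]
  field_simp

theorem rat2 : rat u v x q (.inr 0) = vec u v x 1 / vec u v x 0 := by
  simp only [rat, rrY, j0, ptY, Matrix.cons_val_zero]
  field_simp

theorem rat3 : rat u v x q (.inr 1) = quad u v q (0, 1) / quad u v q (0, 0) := by
  simp only [rat, rrY, j0, ptY, Matrix.cons_val_one, Matrix.cons_val_zero]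
  field_simp

theorem rat4 : rat u v x q (.inr 2) = quad u v q (1, 1) / quad u v q (0, 0) := by
  simp only [rat, rrY, j0, ptY, Matrix.cons_val]
  field_simp

theorem expU (i : Fin (r + 2)) :
    u i = u 0 * U0 (rat u v x q) i + u 1 * V0 (rat u v x q) i := by
  refine Fin.cases ?_ (fun i => Fin.cases ?_ (fun i => ?_) i) i
  · simp [U0, V0]
  · simp [U0, V0]
  · simp only [U0, V0, Fin.cons_succ, rat0 hd ha hb, rat1 hd ha hb]
    field_simp
    simp only [wdg]
    ring

theorem expV (i : Fin (r + 2)) :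
    v i = v 0 * U0 (rat u v x q) i + v 1 * V0 (rat u v x q) i := by
  refine Fin.cases ?_ (fun i => Fin.cases ?_ (fun i => ?_) i) i
  · simp [U0, V0]
  · simp [U0, V0]
  · simp only [U0, V0, Fin.cons_succ, rat0 hd ha hb, rat1 hd ha hb]
    field_simp
    simp only [wdg]
    ring

theorem expW (s : Sg (r + 2)) :
    wdg u v s = wdg u v (0, 1) * wdg (U0 (rat u v x q)) (V0 (rat u v x q)) s := by
  simp only [wdg]
  rw [expU hd ha hb s.1, expU hd ha hb s.2, expV hd ha hb s.1, expV hd ha hb s.2]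
  ring

theorem expVec (i : Fin (r + 2)) :
    vec u v x i = vec u v x 0 *
      vec (U0 (rat u v x q)) (V0 (rat u v x q)) ![1, rat u v x q (.inr 0)] i := by
  rw [rat2 hd ha hb]
  simp only [vec, Matrix.cons_val_zero, Matrix.cons_val_one] at ha ⊢
  rw [expU hd ha hb i, expV hd ha hb i]
  field_simp
  ring

theorem expQ (s : Fin (r + 2) × Fin (r + 2)) :
    quad u v q s = quad u v q (0, 0) * quad (U0 (rat u v x q)) (V0 (rat u v x q))
      ![1, rat u v x q (.inr 1), rat u v x q (.inr 2)] s := by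
  rw [rat3 hd ha hb, rat4 hd ha hb, quad_div _ _ _ _ _ hb, mul_div_cancel₀ _ hb]
  simp only [quad]
  rw [expU hd ha hb s.1, expU hd ha hb s.2, expV hd ha hb s.1, expV hd ha hb s.2]
  ring

theorem expY (t : Co (r + 2)) :
    ptY u v x q t = (wdg u v (0, 1) * (vec u v x 0 * quad u v q (0, 0))) *
      ptY (U0 (rat u v x q)) (V0 (rat u v x q)) ![1, rat u v x q (.inr 0)]
        ![1, rat u v x q (.inr 1), rat u v x q (.inr 2)] t := by
  conv_lhs => rw [ptY, expW hd ha hb, expVec hd ha hb, expQ hd ha hb]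
  conv_rhs => unfold ptY
  ring

theorem expX (t : Co (r + 2)) :
    ptX u v (mulc x q) t = (wdg u v (0, 1) * (vec u v x 0 * quad u v q (0, 0))) *
      xOf (rat u v x q) t := by
  conv_lhs => rw [ptX, cub_mulc, expW hd ha hb, expVec hd ha hb t.2.1, expVec hd ha hb t.2.2.1,
    expVec hd ha hb t.2.2.2, expQ hd ha hb (t.2.2.1, t.2.2.2), expQ hd ha hb (t.2.1, t.2.2.2),
    expQ hd ha hb (t.2.1, t.2.2.1)]
  conv_rhs => unfold xOf ptX
  rw [cub_mulc]
  ring

end ratio

section nz
variable {k K : Type} [Field k] [Field K] [Algebra k K] {r : ℕ}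

/-- The action on vectors of polynomials. -/
noncomputable def actP {N : ℕ} (g : Matrix (Fin N) (Fin N) k) (u : Fin N → MvPolynomial (Ch r) k) :
    Fin N → MvPolynomial (Ch r) k := fun i => ∑ j, C (g i j) * u j

theorem aeval_U0 (Y : Ch r → K) (i : Fin (r + 2)) :
    aeval Y (U0 (X : Ch r → MvPolynomial (Ch r) k) i) = U0 Y i := by
  refine Fin.cases ?_ (fun i => Fin.cases ?_ (fun i => ?_) i) i <;> simp [U0]

theorem aeval_V0 (Y : Ch r → K) (i : Fin (r + 2)) :
    aeval Y (V0 (X : Ch r → MvPolynomial (Ch r) k) i) = V0 Y i := by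
  refine Fin.cases ?_ (fun i => Fin.cases ?_ (fun i => ?_) i) i <;> simp [V0]

theorem aeval_actP {N : ℕ} (g : Matrix (Fin N) (Fin N) k) (u : Fin N → MvPolynomial (Ch r) k)
    (Y : Ch r → K) (w : Fin N → K) (h : ∀ i, aeval Y (u i) = w i) (i : Fin N) :
    aeval Y (actP g u i) = act g w i := by
  simp [actP, act, h]

/-- The linear form. -/
theorem act_add {N : ℕ} (g : Matrix (Fin N) (Fin N) k) (p q : Fin N → k) (i : Fin N) :
    act g (p + q) i = act g p i + act g q i := by
  unfold act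
  rw [← Finset.sum_add_distrib]
  exact Finset.sum_congr rfl fun j _ => by rw [Pi.add_apply]; ring

theorem act_smul {N : ℕ} (g : Matrix (Fin N) (Fin N) k) (c : k) (p : Fin N → k) (i : Fin N) :
    act g (c • p) i = c * act g p i := by
  unfold act
  rw [Finset.mul_sum]
  exact Finset.sum_congr rfl fun j _ => by rw [Pi.smul_apply, smul_eq_mul]; ring

theorem exists_pt (g : Matrix (Fin (r + 2)) (Fin (r + 2)) k) (hg : g.det ≠ 0) :
    ∃ f : Fin r × Fin 2 → k, ∀ s : Fin 3 → k,
      wdg (act g (U0 (Sum.elim f s))) (act g (V0 (Sum.elim f s))) (0, 1) ≠ 0 := by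
  by_contra hcon
  have H : ∀ w w' : Fin r → k,
      wdg (act g (Fin.cons 1 (Fin.cons 0 w) : Fin (r + 2) → k))
        (act g (Fin.cons 0 (Fin.cons 1 w') : Fin (r + 2) → k)) (0, 1) = 0 := by
    intro w w'
    by_contra hne
    apply hcon
    refine ⟨fun p => if p.2 = 0 then w p.1 else w' p.1, fun s => ?_⟩
    have e1 : (U0 (Sum.elim (fun p : Fin r × Fin 2 => if p.2 = 0 then w p.1 else w' p.1) s) :
        Fin (r + 2) → k) = Fin.cons 1 (Fin.cons 0 w) := by
      unfold U0
      simp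
    have e2 : (V0 (Sum.elim (fun p : Fin r × Fin 2 => if p.2 = 0 then w p.1 else w' p.1) s) :
        Fin (r + 2) → k) = Fin.cons 0 (Fin.cons 1 w') := by
      unfold V0
      simp
    rw [e1, e2]
    exact hne
  set e₀ : Fin (r + 2) → k := Fin.cons 1 (Fin.cons 0 0) with he0
  set e₁ : Fin (r + 2) → k := Fin.cons 0 (Fin.cons 1 0) with he1
  have dec : ∀ (a b : k) (w : Fin r → k), (Fin.cons a (Fin.cons b w) : Fin (r + 2) → k) =
      a • e₀ + b • e₁ + Fin.cons 0 (Fin.cons 0 w) := by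
    intro a b w
    funext i
    refine Fin.cases ?_ (fun i => Fin.cases ?_ (fun i => ?_) i) i <;> simp [he0, he1]
  have dec' : ∀ (a b : k) (w : Fin r → k) (i : Fin (r + 2)),
      act g (Fin.cons a (Fin.cons b w) : Fin (r + 2) → k) i =
      a * act g e₀ i + b * act g e₁ i + act g (Fin.cons 0 (Fin.cons 0 w) : Fin (r + 2) → k) i := by
    intro a b w i
    rw [dec, act_add, act_add, act_smul, act_smul]
  have z0 : ∀ i, act g (Fin.cons 0 (Fin.cons 0 (0 : Fin r → k)) : Fin (r + 2) → k) i = 0 := by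
    intro i
    have : (Fin.cons 0 (Fin.cons 0 (0 : Fin r → k)) : Fin (r + 2) → k) = (0 : k) • e₀ := by
      funext i
      refine Fin.cases ?_ (fun i => Fin.cases ?_ (fun i => ?_) i) i <;> simp
    rw [this, act_smul, zero_mul]
  have H' : ∀ w w' : Fin r → k,
      (act g e₀ 0 + act g (Fin.cons 0 (Fin.cons 0 w) : Fin (r + 2) → k) 0) *
        (act g e₁ 1 + act g (Fin.cons 0 (Fin.cons 0 w') : Fin (r + 2) → k) 1) -
      (act g e₁ 0 + act g (Fin.cons 0 (Fin.cons 0 w') : Fin (r + 2) → k) 0) *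
        (act g e₀ 1 + act g (Fin.cons 0 (Fin.cons 0 w) : Fin (r + 2) → k) 1) = 0 := by
    intro w w'
    have := H w w'
    simp only [wdg] at this
    rw [dec' 1 0 w 0, dec' 1 0 w 1, dec' 0 1 w' 0, dec' 0 1 w' 1] at this
    linear_combination this
  have B : ∀ p q : Fin (r + 2) → k, wdg (act g p) (act g q) (0, 1) = 0 := by
    intro p q
    have ep : p = (Fin.cons (p 0) (Fin.cons (p 1) fun i => p i.succ.succ) : Fin (r + 2) → k) := by
      funext i
      refine Fin.cases ?_ (fun i => Fin.cases ?_ (fun i => ?_) i) i <;> simp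
    have eq : q = (Fin.cons (q 0) (Fin.cons (q 1) fun i => q i.succ.succ) : Fin (r + 2) → k) := by
      funext i
      refine Fin.cases ?_ (fun i => Fin.cases ?_ (fun i => ?_) i) i <;> simp
    obtain ⟨w, hw⟩ : ∃ w : Fin r → k, w = fun i => p i.succ.succ := ⟨_, rfl⟩
    obtain ⟨w', hw'⟩ : ∃ w' : Fin r → k, w' = fun i => q i.succ.succ := ⟨_, rfl⟩
    rw [← hw] at ep
    rw [← hw'] at eq
    have h00 := H' 0 0
    have hw0 := H' w 0
    have hw0' := H' w' 0
    have h0w := H' 0 w
    have h0w' := H' 0 w'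
    have hww := H' w w'
    simp only [z0] at h00 hw0 hw0' h0w h0w'
    simp only [wdg]
    rw [ep, eq, dec' _ _ w 0, dec' _ _ w 1, dec' _ _ w' 0, dec' _ _ w' 1]
    linear_combination (p 0 * q 1 - p 1 * q 0) * h00 + p 0 * (h0w' - h00) - p 1 * (hw0' - h00)
      - q 0 * (h0w - h00) + q 1 * (hw0 - h00) + (hww - hw0 - h0w' + h00)
  have hg' : (g⁻¹).det ≠ 0 := by
    have := Matrix.isUnit_nonsing_inv_det g (isUnit_iff_ne_zero.2 hg)
    exact this.ne_zero
  have hinv : ∀ p : Fin (r + 2) → k, act g (act g⁻¹ p) = p := by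
    intro p
    have := act_inv (K := k) g⁻¹ hg' p
    rwa [Matrix.nonsing_inv_nonsing_inv g (isUnit_iff_ne_zero.2 hg)] at this
  have := B (act g⁻¹ (Pi.single 0 1)) (act g⁻¹ (Pi.single 1 1))
  rw [hinv, hinv] at this
  simp [wdg] at this

theorem nonzero (g : Matrix (Fin (r + 2)) (Fin (r + 2)) k) (hg : g.det ≠ 0) (Y : Ch r → K)
    (hY : AlgebraicIndependent k Y) :
    wdg (act g (U0 Y)) (act g (V0 Y)) (0, 1) ≠ 0 ∧
    vec (act g (U0 Y)) (act g (V0 Y)) ![1, Y (.inr 0)] 0 ≠ 0 ∧
    quad (act g (U0 Y)) (act g (V0 Y)) ![1, Y (.inr 1), Y (.inr 2)] (0, 0) ≠ 0 := by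
  obtain ⟨f, hf⟩ := exists_pt g hg
  have key : ∀ (P : MvPolynomial (Ch r) k) (y : Ch r → k), aeval y P ≠ 0 → aeval Y P ≠ 0 := by
    intro P y hy h0
    apply hy
    have : P = 0 := hY (by rw [h0, map_zero])
    rw [this, map_zero]
  have eU : ∀ (y : Ch r → K) i, aeval y (actP g (U0 X) i) = act g (U0 y) i :=
    fun y i => aeval_actP g _ y _ (aeval_U0 y) i
  have eV : ∀ (y : Ch r → K) i, aeval y (actP g (V0 X) i) = act g (V0 y) i :=
    fun y i => aeval_actP g _ y _ (aeval_V0 y) i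
  have eU' : ∀ (y : Ch r → k) i, aeval y (actP g (U0 X) i) = act g (U0 y) i :=
    fun y i => aeval_actP g _ y _ (aeval_U0 y) i
  have eV' : ∀ (y : Ch r → k) i, aeval y (actP g (V0 X) i) = act g (V0 y) i :=
    fun y i => aeval_actP g _ y _ (aeval_V0 y) i
  have hor : ∀ s : Fin 3 → k, act g (U0 (Sum.elim f s)) 0 ≠ 0 ∨ act g (V0 (Sum.elim f s)) 0 ≠ 0 := by
    intro s
    by_contra hcon
    rw [not_or, not_not, not_not] at hcon
    apply hf s
    simp only [wdg]
    rw [hcon.1, hcon.2]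
    ring
  have hU : ∀ s s' : Fin 3 → k, U0 (Sum.elim f s) = U0 (Sum.elim f s') := fun s s' => rfl
  have hV : ∀ s s' : Fin 3 → k, V0 (Sum.elim f s) = V0 (Sum.elim f s') := fun s s' => rfl
  refine ⟨?_, ?_, ?_⟩
  · have := key (wdg (actP g (U0 X)) (actP g (V0 X)) (0, 1)) (Sum.elim f 0) (by
      simp only [wdg, map_sub, map_mul, eU', eV']
      exact hf 0)
    simpa only [wdg, map_sub, map_mul, eU, eV] using this
  · rcases hor 0 with h | h
    · have := key (vec (actP g (U0 X)) (actP g (V0 X)) ![1, X (.inr 0)] 0) (Sum.elim f 0) (by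
        simp only [vec, map_add, map_mul, eU', eV', Matrix.cons_val_zero, Matrix.cons_val_one,
          map_one, aeval_X, Sum.elim_inr, Pi.zero_apply, zero_mul, add_zero, one_mul]
        exact h)
      simpa only [vec, map_add, map_mul, eU, eV, Matrix.cons_val_zero, Matrix.cons_val_one,
          map_one, aeval_X] using this
    · by_cases h' : act g (U0 (Sum.elim f 0)) 0 = 0
      · have := key (vec (actP g (U0 X)) (actP g (V0 X)) ![1, X (.inr 0)] 0)
          (Sum.elim f (fun _ => 1)) (by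
          simp only [vec, map_add, map_mul, eU', eV', Matrix.cons_val_zero, Matrix.cons_val_one,
            map_one, aeval_X, Sum.elim_inr, one_mul]
          rw [hU _ 0, hV _ 0, h', zero_add]
          exact h)
        simpa only [vec, map_add, map_mul, eU, eV, Matrix.cons_val_zero, Matrix.cons_val_one,
          map_one, aeval_X] using this
      · have := key (vec (actP g (U0 X)) (actP g (V0 X)) ![1, X (.inr 0)] 0) (Sum.elim f 0) (by
          simp only [vec, map_add, map_mul, eU', eV', Matrix.cons_val_zero, Matrix.cons_val_one,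
            map_one, aeval_X, Sum.elim_inr, Pi.zero_apply, zero_mul, add_zero, one_mul]
          exact h')
        simpa only [vec, map_add, map_mul, eU, eV, Matrix.cons_val_zero, Matrix.cons_val_one,
          map_one, aeval_X] using this
  · by_cases h' : act g (U0 (Sum.elim f 0)) 0 = 0
    · have h : act g (V0 (Sum.elim f 0)) 0 ≠ 0 := (hor 0).resolve_left (not_not.2 h')
      have := key (quad (actP g (U0 X)) (actP g (V0 X)) ![1, X (.inr 1), X (.inr 2)] (0, 0))
        (Sum.elim f (fun _ => 1)) (by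
          simp only [quad, map_add, map_mul, eU', eV', Matrix.cons_val,
            map_one, aeval_X, Sum.elim_inr, one_mul]
          rw [hU _ 0, hV _ 0, h']
          simpa using h)
      simpa only [quad, map_add, map_mul, eU, eV, Matrix.cons_val,
          map_one, aeval_X] using this
    · have := key (quad (actP g (U0 X)) (actP g (V0 X)) ![1, X (.inr 1), X (.inr 2)] (0, 0))
        (Sum.elim f 0) (by
          simp only [quad, map_add, map_mul, eU', eV', Matrix.cons_val,
            map_one, aeval_X, Sum.elim_inr, one_mul, Pi.zero_apply, zero_mul, add_zero]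
          exact mul_ne_zero h' h')
      simpa only [quad, map_add, map_mul, eU, eV, Matrix.cons_val,
          map_one, aeval_X] using this

end nz

section main
variable {k K : Type} [Field k] [Field K] [Algebra k K] {r : ℕ}

theorem ptY_mem {N : ℕ} (E : IntermediateField k K) {u v : Fin N → K} {x : Fin 2 → K}
    {q : Fin 3 → K} (hu : ∀ i, u i ∈ E) (hv : ∀ i, v i ∈ E) (hx : ∀ i, x i ∈ E)
    (hq : ∀ i, q i ∈ E) (t : Co N) : ptY u v x q t ∈ E := by
  unfold ptY wdg vec quad
  refine mul_mem (sub_mem (mul_mem (hu _) (hv _)) (mul_mem (hv _) (hu _))) (mul_mem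
    (add_mem (mul_mem (hx _) (hu _)) (mul_mem (hx _) (hv _))) ?_)
  exact add_mem (add_mem (mul_mem (hq _) (mul_mem (hu _) (hu _)))
    (mul_mem (hq _) (add_mem (mul_mem (hu _) (hv _)) (mul_mem (hv _) (hu _)))))
    (mul_mem (hq _) (mul_mem (hv _) (hv _)))

theorem act_mem {N : ℕ} (E : IntermediateField k K) (g : Matrix (Fin N) (Fin N) k) {u : Fin N → K}
    (hu : ∀ i, u i ∈ E) (i : Fin N) : act g u i ∈ E :=
  sum_mem fun j _ => mul_mem (E.algebraMap_mem _) (hu j)

theorem Yg_mem (E : IntermediateField k K) (g : Matrix (Fin (r + 2)) (Fin (r + 2)) k)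
    {Z : Ch r → K} (hZ : ∀ j, Z j ∈ E) (j : Ch r) : Yg g Z j ∈ E := by
  have hU : ∀ i, U0 Z i ∈ E := by
    intro i
    refine Fin.cases ?_ (fun i => Fin.cases ?_ (fun i => ?_) i) i
    · exact one_mem E
    · exact zero_mem E
    · exact hZ _
  have hV : ∀ i, V0 Z i ∈ E := by
    intro i
    refine Fin.cases ?_ (fun i => Fin.cases ?_ (fun i => ?_) i) i
    · exact zero_mem E
    · exact one_mem E
    · exact hZ _
  have hx : ∀ i, (![1, Z (.inr 0)] : Fin 2 → K) i ∈ E := by
    intro i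
    fin_cases i
    · exact one_mem E
    · exact hZ _
  have hq : ∀ i, (![1, Z (.inr 1), Z (.inr 2)] : Fin 3 → K) i ∈ E := by
    intro i
    fin_cases i
    · exact one_mem E
    · exact hZ _
    · exact hZ _
  exact div_mem (ptY_mem E (act_mem E g hU) (act_mem E g hV) hx hq _)
    (ptY_mem E (act_mem E g hU) (act_mem E g hV) hx hq _)

theorem chart_one (Y : Ch r → K) :
    ptY (U0 Y) (V0 Y) ![1, Y (.inr 0)] ![1, Y (.inr 1), Y (.inr 2)] (j0 r) = 1 := by
  simp [ptY, j0, wdg, vec, quad, U0, V0]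

theorem chart_rrY (Y : Ch r → K) (j : Ch r) :
    ptY (U0 Y) (V0 Y) ![1, Y (.inr 0)] ![1, Y (.inr 1), Y (.inr 2)] (rrY r j) = Y j := by
  rcases j with ⟨i, j⟩ | j
  · fin_cases j <;> simp [ptY, rrY, wdg, vec, quad, U0, V0]
  · fin_cases j <;> simp [ptY, rrY, wdg, vec, quad, U0, V0]

theorem isAlg {Z : Ch r → K} (h : IntermediateField.adjoin k (Set.range Z) = ⊤) :
    Algebra.IsAlgebraic (Algebra.adjoin k (Set.range Z)) K := by
  refine ⟨fun z => ?_⟩
  have hm : z ∈ IntermediateField.adjoin k (Set.range Z) := by rw [h]; trivial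
  rw [IntermediateField.mem_adjoin_range_iff] at hm
  obtain ⟨F, G, rfl⟩ := hm
  have hF : ∀ F : MvPolynomial (Ch r) k, aeval Z F ∈ Algebra.adjoin k (Set.range Z) := by
    intro F
    rw [Algebra.adjoin_range_eq_range_aeval]
    exact ⟨F, rfl⟩
  have h1 : ∀ F : MvPolynomial (Ch r) k,
      IsAlgebraic (Algebra.adjoin k (Set.range Z)) (aeval Z F) := fun F =>
    isAlgebraic_algebraMap (⟨aeval Z F, hF F⟩ : Algebra.adjoin k (Set.range Z))
  rw [div_eq_mul_inv]
  exact (h1 F).mul (IsAlgebraic.inv_iff.2 (h1 G))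

end main

theorem done : S_SYM := by
  intro k K _ _ _ _ r Y x hc g hg
  obtain ⟨hd, ha, hb⟩ := nonzero g hg Y hc.ind
  obtain ⟨Z, hZ⟩ : ∃ Z : Ch r → K, Z = Yg g Y := ⟨_, rfl⟩
  have hZ' : Z = rat (act g (U0 Y)) (act g (V0 Y)) ![1, Y (.inr 0)] ![1, Y (.inr 1), Y (.inr 2)] := by
    rw [hZ]
    rfl
  have hD := mul_ne_zero hd (mul_ne_zero ha hb)
  have eY := expY hd ha hb
  have eX := expX hd ha hb
  rw [← hZ'] at eY eX
  obtain ⟨D, hDe⟩ : ∃ D, D = wdg (act g (U0 Y)) (act g (V0 Y)) (0, 1) *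
      (vec (act g (U0 Y)) (act g (V0 Y)) ![1, Y (.inr 0)] 0 *
        quad (act g (U0 Y)) (act g (V0 Y)) ![1, Y (.inr 1), Y (.inr 2)] (0, 0)) := ⟨_, rfl⟩
  rw [← hDe] at eY eX hD
  have hinv : Yg g⁻¹ Z = Y := by
    have e : ∀ t, D * ptY (act g⁻¹ (U0 Z)) (act g⁻¹ (V0 Z)) ![1, Z (.inr 0)]
        ![1, Z (.inr 1), Z (.inr 2)] t =
        ptY (U0 Y) (V0 Y) ![1, Y (.inr 0)] ![1, Y (.inr 1), Y (.inr 2)] t := by
      intro t
      rw [← actX_ptY, ← actX_mul]
      have : (fun t => D * ptY (U0 Z) (V0 Z) ![1, Z (.inr 0)] ![1, Z (.inr 1), Z (.inr 2)] t) =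
          ptY (act g (U0 Y)) (act g (V0 Y)) ![1, Y (.inr 0)] ![1, Y (.inr 1), Y (.inr 2)] := by
        funext t
        rw [eY]
      rw [this, actX_ptY, act_inv g hg, act_inv g hg]
    funext j
    have e1 := e (rrY r j)
    have e2 := e (j0 r)
    rw [chart_rrY] at e1
    rw [chart_one] at e2
    unfold Yg
    have h2 : ptY (act g⁻¹ (U0 Z)) (act g⁻¹ (V0 Z)) ![1, Z (.inr 0)]
        ![1, Z (.inr 1), Z (.inr 2)] (j0 r) ≠ 0 := by
      intro h0
      rw [h0, mul_zero] at e2
      exact zero_ne_one e2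
    rw [div_eq_iff h2, ← e1]
    apply mul_left_cancel₀ hD
    linear_combination (-D * ptY (act g⁻¹ (U0 Z)) (act g⁻¹ (V0 Z)) ![1, Z (.inr 0)]
        ![1, Z (.inr 1), Z (.inr 2)] (rrY r j)) * e2
  have htop : IntermediateField.adjoin k (Set.range Z) = ⊤ := by
    rw [eq_top_iff, ← hc.top, IntermediateField.adjoin_le_iff]
    rintro _ ⟨j, rfl⟩
    have hm := Yg_mem (IntermediateField.adjoin k (Set.range Z)) g⁻¹ (Z := Z)
      (fun j => IntermediateField.subset_adjoin k _ ⟨j, rfl⟩) j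
    rw [hinv] at hm
    exact hm
  have hY : Algebra.IsAlgebraic (Algebra.adjoin k (Set.range Y)) K := isAlg hc.top
  have hZa : Algebra.IsAlgebraic (Algebra.adjoin k (Set.range Z)) K := isAlg htop
  have hbY : IsTranscendenceBasis k Y := hc.ind.isTranscendenceBasis_iff_isAlgebraic.2 hY
  have hbZ : IsTranscendenceBasis k Z :=
    Algebra.IsAlgebraic.isTranscendenceBasis_of_le_trdeg_of_finite k Z
      (le_of_eq hbY.cardinalMk_eq_trdeg)
  rw [← hZ]
  refine ⟨hbZ.1, htop, ?_⟩
  obtain ⟨c, hc0, hcx⟩ := hc.eq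
  refine ⟨c * D, mul_ne_zero hc0 hD, ?_⟩
  funext t
  rw [hcx, actX_mul]
  unfold xOf
  rw [actX_ptX, eX]
  unfold xOf
  ring

end Pool.Agent.Y846.LT.SYM
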